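import Pool.Agent.Helper19.TGX.Goals

/-!
# Project TGX, MPX: images of points
-/

set_option autoImplicit false

namespace Pool.Agent.Helper26.TGX.MPX

open WeierstrassCurve
open Pool.Agent.Helper29.BL Pool.Agent.Helper42.SG
open Pool.Agent.Helper60.T3 (WL zd IP)
open Pool.Agent.Helper92.TG (mp)

noncomputable section

variable {k : Type} [Field k] {W : Affine k} {F F' : Type} [Field F] [DecidableEq F]
  [Algebra k F] [Field F'] [DecidableEq F'] [Algebra k F'] (j : F →ₐ[k] F')

theorem xc_mp (P : (WL F W).Point) : xc (mp j P) = j (xc P) := by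
  rcases P with _ | ⟨x, y, h⟩
  · exact (map_zero j).symm
  · rfl

omit [DecidableEq F] [DecidableEq F'] in
theorem a_map : j (WL F W).a₁ = (WL F' W).a₁ ∧ j (WL F W).a₃ = (WL F' W).a₃ :=
  ⟨j.commutes W.a₁, j.commutes W.a₃⟩

theorem ps_mp (P : (WL F W).Point) : ps (mp j P) = j (ps P) := by
  rcases P with _ | ⟨x, y, h⟩
  · exact (map_zero j).symm
  · change 2 * j y + (WL F' W).a₁ * j x + (WL F' W).a₃ =
      j (2 * y + (WL F W).a₁ * x + (WL F W).a₃)
    rw [map_add, map_add, map_mul, map_mul, (a_map j).1, (a_map j).2, map_ofNat]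

theorem mp_eq_zero (P : (WL F W).Point) : mp j P = 0 ↔ P = 0 := by
  constructor
  · intro h
    refine Affine.Point.map_injective (W' := W) j ?_
    exact h.trans (map_zero _).symm
  · rintro rfl
    exact map_zero _

theorem exists_mp [CharZero k] (R : (WL F' W).Point) (hR : IP (Set.range j) R) :
    ∃ R₀ : (WL F W).Point, mp j R₀ = R := by
  rcases R with _ | ⟨x, y, h⟩
  · exact ⟨0, map_zero _⟩
  · rcases hR with h0 | ⟨⟨x₀, hx⟩, ⟨p, hp⟩⟩
    · exact absurd h0 (by simp)
    · have hchar : CharZero F' := charZero_of_injective_algebraMap (algebraMap k F').injective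
      have hcharF : CharZero F := charZero_of_injective_algebraMap (algebraMap k F).injective
      have hx' : j x₀ = x := hx
      have hp' : j p = 2 * y + (WL F' W).a₁ * x + (WL F' W).a₃ := hp
      have hy : j ((p - (WL F W).a₁ * x₀ - (WL F W).a₃) / 2) = y := by
        rw [map_div₀, map_sub, map_sub, map_mul, (a_map j).1, (a_map j).2, map_ofNat, hx', hp']
        field_simp
        ring
      subst hx'
      subst hy
      have h' : (WL F W).Nonsingular x₀ ((p - (WL F W).a₁ * x₀ - (WL F W).a₃) / 2) :=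
        (Affine.baseChange_nonsingular (W := W) (f := j) j.injective
          x₀ ((p - (WL F W).a₁ * x₀ - (WL F W).a₃) / 2)).1 h
      exact ⟨Affine.Point.some _ _ h', rfl⟩

theorem t : Pool.Agent.Helper19.TGX.MPX := by
  intro k _ _ W F F' _ _ _ _ _ _ j P
  exact ⟨xc_mp j P, ps_mp j P, mp_eq_zero j P, fun R hR => exists_mp j R hR⟩

end

end Pool.Agent.Helper26.TGX.MPX
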